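import Pool.Agent.H879.Neg.Segre

/-! The dimension of all systems, up to a bound in terms of the tenth multiplicity. -/

set_option autoImplicit false

namespace Pool.Agent.H879.Star

open MvPolynomial Pool.Agent.W609 Pool.Agent.W609.CR Pool.Agent.TH167 Pool.Agent.TH167.SH
  Pool.Agent.H932R3 Pool.Agent.TH442.NF

/-- Every nonempty system is the sum of disjoint `(-1)`-curves with multiplicities and of a residual
system which becomes standard by quadratic transformations. -/
theorem all_gen {r : ℕ} (d : ℕ) (w : Fin (r + 4) → ℕ) :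
    ∃ F : MvPolynomial (Fin (r + 4) × Fin 2) ℚ, F ≠ 0 ∧ ∀ (K : Type) [Field K] [CharZero K]
      (P : Fin (r + 4) → Fin 2 → K), evP P F ≠ 0 →
        Module.finrank K ↥(VS (fun j => aff (P j)) w d) = 0 ∨
        ∃ (d' : ℕ) (w' : Fin (r + 4) → ℕ) (k : ℕ)
          (C : Fin k → MvPolynomial (Fin 3) K) (e : Fin k → ℕ) (u : Fin k → Fin (r + 4) → ℕ)
          (N : Fin k → ℕ) (d1 : ℕ) (w1 : Fin (r + 4) → ℕ),
          Dcp P d w d' w' C e u N ∧ Relation.ReflTransGen Quad (d', w') (d1, w1) ∧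
          Less d1 w1 d w ∧ Reduced d1 w1 ∧
          Module.finrank K ↥(VS (fun j => aff (P j)) w' d') =
            Module.finrank K ↥(VS (fun j => aff (P j)) w d) ∧
          Module.finrank K ↥(VS (fun j => aff (P j)) w1 d1) =
            Module.finrank K ↥(VS (fun j => aff (P j)) w d) ∧
          Pool.Agent.Y205.MD.crk (Pool.Agent.TH387.SH.TF d1) w1 =
            Module.finrank K ↥(VS (fun j => aff (P j)) w d) ∧
          ((Module.finrank K ↥(VS (fun j => aff (P j)) w d) : ℤ) = chi d' w' ∨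
            (chi d' w' < Module.finrank K ↥(VS (fun j => aff (P j)) w d) ∧
              ¬ Pool.Agent.Q310.FP.GE d1 w1)) := by
  classical
  obtain ⟨g, Fg, hFg, hg⟩ := dim_gen w d
  obtain ⟨K0, i1, i2, P0, hP0⟩ := SH.exists_generic (r + 4)
  rcases Nat.eq_zero_or_pos g with hg0 | hg0
  · refine ⟨Fg, hFg, fun K _ _ P hP => ?_⟩
    left
    rw [hg K P hP, hg0]
  · have hg1 := hg K0 P0 (evP_ne hP0 hFg)
    obtain ⟨d', w', k, C0, e, u, N, hD, hdim, P1, d1, w1, hP1, hchain, hfew, hred, hdim1⟩ :=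
      main_less d P0 hP0 w (by rw [hg1]; exact hg0)
    obtain ⟨g', Fg', hFg', hg'⟩ := dim_gen w' d'
    obtain ⟨g1, Fg1, hFg1, hg1'⟩ := dim_gen w1 d1
    have hge : g' = g := by
      rw [← hg' K0 P0 (evP_ne hP0 hFg'), hdim, hg1]
    have hg1e : g1 = g := by
      rw [← hg1' K0 P1 (evP_ne hP1 hFg1), hdim1, hdim, hg1]
    have hcrk : Pool.Agent.Y205.MD.crk (Pool.Agent.TH387.SH.TF d1) w1 = g := by
      have h1 := Pos.finrank_ind w1 d1 hP1
      rw [← h1, ← vs_eq_forms, hdim1, hdim, hg1]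
    have hspr := fun a => exc_spread (e a) (u a) ⟨K0, i1, i2, P0, C0 a, hP0, hD.exc a⟩
    choose Fa hFa hFa' using hspr
    refine ⟨Fg * Fg' * Fg1 * ∏ a, Fa a, mul_ne_zero (mul_ne_zero (mul_ne_zero hFg hFg') hFg1)
      (Finset.prod_ne_zero_iff.2 fun a _ => hFa a), fun K _ _ P hP => ?_⟩
    rw [map_mul, map_mul, map_mul, map_prod] at hP
    have q0 := hg K P (left_ne_zero_of_mul (left_ne_zero_of_mul (left_ne_zero_of_mul hP)))
    have q1 := hg' K P (right_ne_zero_of_mul (left_ne_zero_of_mul (left_ne_zero_of_mul hP)))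
    have q2 := hg1' K P (right_ne_zero_of_mul (left_ne_zero_of_mul hP))
    have q3 := Finset.prod_ne_zero_iff.1 (right_ne_zero_of_mul hP)
    choose C hC using fun a => hFa' a K P (q3 a (Finset.mem_univ a))
    have hDcp : Dcp P d w d' w' C e u N := ⟨hC, hD.pos, hD.orth, hD.deg, hD.mul, hD.zero⟩
    obtain ⟨c1, c2, c3⟩ := quad_inv hchain
    simp only at c1 c2 c3
    right
    refine ⟨d', w', k, C, e, u, N, d1, w1, hDcp, hchain, hfew, hred, ?_, ?_, ?_, ?_⟩
    · rw [q1, q0, hge]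
    · rw [q2, q0, hg1e]
    · rw [hcrk, q0]
    · rw [q0]
      have h3 := chi_le_dim P d1 w1
      rw [q2, hg1e] at h3
      by_cases hns : (g : ℤ) = chi d' w'
      · exact Or.inl hns
      right
      refine ⟨by omega, fun hq => ?_⟩
      have h1 : ExpDim K0 w1 P1 d1 := hq K0 P1 hP1
      rw [expDim_iff, hdim1, hdim, hg1] at h1
      rcases max_choice (0 : ℤ) (chi d1 w1) with h | h
      · omega
      · omega

end Pool.Agent.H879.Star
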