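import Pool.Agent.H879.Neg.Tenth

/-! Curves of positive genus with nonpositive self-intersection and their tenth multiplicity. -/

set_option autoImplicit false

namespace Pool.Agent.H879.Neg

open Finset MvPolynomial Pool.Agent.TH167 Pool.Agent.TH167.SHDefs
open Pool.Agent.TH176.Nag Pool.Agent.TH603.Sur H932R3
open Pool.Agent.TH2 Pool.Agent.TH2.NU Pool.Agent.Y205.MD Pool.Agent.Y205.FW Pool.Agent.Y205.AV
open Pool.Agent.K7.H33.BP
open Pool.Agent.Q310.FP (GE)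
open Pool.Agent.H879.Star

/-- The standard form of a curve with nonpositive self-intersection and `K C > 0`. -/
structure PosForm {r : ℕ} (d : ℕ) (w : Fin (r + 4) → ℕ)
    (P1 : Fin (r + 4) → Fin 2 → ℂ) (d1 : ℕ) (w1 : Fin (r + 4) → ℕ)
    (C1 : MvPolynomial (Fin 3) ℂ) : Prop where
  alg : AlgebraicIndependent ℚ (fun ij : Fin (r + 4) × Fin 2 => P1 ij.1 ij.2)
  curve : Curve P1 C1 d1 w1
  chain : Relation.ReflTransGen Quadratic (d, w) (d1, w1)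
  std : Pool.Agent.Y536.SH.Standard d1 w1
  deg : d1 ≤ d
  mult : ∀ i, w1 i ≤ w i
  self : inter d1 w1 d1 w1 = inter d w d w
  can : interK d1 w1 = interK d w
  canPos : 0 < interK d1 w1
  spec : ¬ H932R3.ExpDim ℂ w1 P1 d1

theorem pos_std {r : ℕ} {P : Fin (r + 4) → Fin 2 → ℂ}
    (hP : AlgebraicIndependent ℚ (fun ij : Fin (r + 4) × Fin 2 => P ij.1 ij.2))
    {d : ℕ} {w : Fin (r + 4) → ℕ} {C : MvPolynomial (Fin 3) ℂ} (hC : Curve P C d w)
    (h0 : inter d w d w ≤ 0) (hK : 0 < interK d w) :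
    ∃ (P1 : Fin (r + 4) → Fin 2 → ℂ) (d1 : ℕ) (w1 : Fin (r + 4) → ℕ)
      (C1 : MvPolynomial (Fin 3) ℂ), PosForm d w P1 d1 w1 C1 := by
  obtain ⟨h1, h2, h3⟩ := SH.curve_iff.1 hC
  have hne' : ¬ (SH.ip d w d w = -1 ∧ SH.kk d w = 1) := fun h0 => by
    rw [SH.interK_eq] at hK
    omega
  obtain ⟨M, hM⟩ : ∃ M, ∀ j, w j ≤ M := ⟨∑ j, w j, fun j =>
    Finset.single_le_sum (fun _ _ => Nat.zero_le _) (Finset.mem_univ j)⟩
  have hw : SH.Few M d w := by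
    left
    rw [Finset.filter_false_of_mem fun j _ => not_lt.2 (hM j)]
    simp
  obtain ⟨P1, d1, w1, C1, a1, a2, a3, a4, a5, a6, a7, a8⟩ :=
    Pool.Agent.Y939.NC.std_irr d P hP w hw C h1 h2 h3 hne'
  obtain ⟨c1, c2, c3⟩ := SH.quad_inv a5
  simp only at c1 c2 c3
  rw [SH.inter_eq] at h0
  rw [SH.interK_eq] at hK
  have h7 := SH.two_chi d1 w1
  have hx : SH.chi d1 w1 ≤ 0 := by omega
  refine ⟨P1, d1, w1, C1, ⟨a1, SH.curve_iff.2 ⟨a2, a3, a4⟩, SH.chain_conv a5, a6, a7, a8,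
    by rw [SH.inter_eq, SH.inter_eq, c3], by rw [SH.interK_eq, SH.interK_eq, c2],
    by rw [SH.interK_eq]; omega,
    Pool.Agent.X213.NegStd.not_exp (SH.curve_iff.2 ⟨a2, a3, a4⟩) hx⟩⟩

/-- The curves of positive genus and nonpositive self-intersection, in standard form. -/
theorem bounds_pos {n d b : ℕ} {w : Fin n → ℕ} {I : Finset (Fin n)} (hn : 4 ≤ n)
    (hs : Pool.Agent.Q310.FP.Standard d w) (hI : I.card ≤ 9) (hb : ∀ i, i ∉ I → w i ≤ b)
    (hG : ¬ GE d w) (hX : ∀ j, 1 ≤ w j → ∑ i, w i ^ 2 ≤ d ^ 2 + w j)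
    (hK : 0 < interK d w) :
    d < 10000000000000000000000000000000 * (b + 1) ^ 14 ∧
    (d : ℤ) ^ 2 - ∑ i ∈ I, (w i : ℤ) ^ 2 < 60000000 * (((b : ℤ) + 1) ^ 2 * (d + b + 2)) ∧
    interK d w - inter d w d w ≤ (d : ℤ) ^ 2 - ∑ i ∈ I, (w i : ℤ) ^ 2 + 2 * b := by
  classical
  have h1 : d < 10000000000000000000000000000000 * (b + 1) ^ 14 := by
    by_contra hcon
    push Not at hcon
    exact hG (ge_star hn hs hI hb hcon)
  have h2 := room_small hn hs hI hb hG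
  have h3 := sum_nine hn hs hI
  have e1 : ∑ i ∈ I, (w i : ℤ) * (w i + 1) = ∑ i ∈ I, (w i : ℤ) ^ 2 + ((∑ i ∈ I, w i : ℕ) : ℤ) := by
    push_cast
    rw [← Finset.sum_add_distrib]
    exact Finset.sum_congr rfl fun i _ => by ring
  have h3' : ((∑ i ∈ I, w i : ℕ) : ℤ) ≤ 3 * d := by exact_mod_cast h3
  rw [e1] at h2
  have h11 : ((∑ i ∈ I, w i : ℕ) : ℤ) = ∑ i ∈ I, (w i : ℤ) := by push_cast; rfl
  have hi2 : inter d w d w = (d : ℤ) ^ 2 - ∑ i, (w i : ℤ) ^ 2 := by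
    unfold inter
    rw [sq]
    congr 1
    exact Finset.sum_congr rfl fun i _ => by ring
  have hsplit : ∀ f : Fin n → ℤ, ∑ i, f i = ∑ i ∈ I, f i + ∑ i ∈ Iᶜ, f i := fun f =>
    (Finset.sum_add_sum_compl I f).symm
  -- a positive multiplicity outside of `I`
  obtain ⟨j, hj, hj0⟩ : ∃ j ∈ Iᶜ, 1 ≤ w j := by
    by_contra hcon
    push Not at hcon
    have h4 : ∑ i ∈ Iᶜ, (w i : ℤ) = 0 := Finset.sum_eq_zero fun i hi => by
      have := hcon i hi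
      omega
    unfold interK at hK
    rw [hsplit, h4] at hK
    linarith
  have hjb : w j ≤ b := hb j (Finset.mem_compl.1 hj)
  have hk : ∑ i, (w i : ℤ) ^ 2 ≤ (d : ℤ) ^ 2 + b := by
    have h5 := hX j hj0
    have h6 : ((∑ i, w i ^ 2 : ℕ) : ℤ) ≤ ((d ^ 2 + w j : ℕ) : ℤ) := by exact_mod_cast h5
    push_cast at h6
    have h7 : ((w j : ℕ) : ℤ) ≤ b := by exact_mod_cast hjb
    linarith
  refine ⟨h1, by linarith, ?_⟩
  rw [hi2]
  unfold interK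
  have h8 : ∑ i, (w i : ℤ) ≤ 3 * d + ∑ i ∈ Iᶜ, (w i : ℤ) ^ 2 := by
    rw [hsplit]
    have h9 : ∑ i ∈ Iᶜ, (w i : ℤ) ≤ ∑ i ∈ Iᶜ, (w i : ℤ) ^ 2 := Finset.sum_le_sum fun i _ => by
      have h10 : w i ≤ w i ^ 2 := Nat.le_self_pow (by norm_num) _
      exact_mod_cast h10
    linarith
  have h12 := hsplit fun i => (w i : ℤ) ^ 2
  linarith

/-- A class of expected dimension with sections has `C ^ 2 ≥ K C`. -/
theorem eff_le {n d : ℕ} {w : Fin n → ℕ} {P : Fin n → Fin 2 → ℂ} {F : MvPolynomial (Fin 3) ℂ}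
    (hE : H932R3.ExpDim ℂ w P d) (h0 : F ≠ 0) (hF : F ∈ sys P d w) :
    interK d w ≤ inter d w d w := by
  rw [Pool.Agent.TH442.NF.expDim_iff] at hE
  have hmem : F ∈ W609.CR.VS (fun j => W609.CR.aff (P j)) w d := by
    rw [← SH.sys_eq]
    exact hF
  have hfin := W609.CR.vs_fin (fun j => W609.CR.aff (P j)) w d
  have hpos : 0 < Module.finrank ℂ ↥(W609.CR.VS (fun j => W609.CR.aff (P j)) w d) :=
    Module.finrank_pos_iff.2 ⟨⟨F, hmem⟩, 0, fun h7 => h0 (congrArg Subtype.val h7)⟩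
  have h7 := SH.two_chi d w
  rw [SH.inter_eq, SH.interK_eq]
  have h8 : 1 ≤ Pool.Agent.TH167.SH.chi d w := by
    by_contra hcon
    have hx' : Pool.Agent.TH167.SH.chi d w ≤ 0 := by omega
    rw [max_eq_left hx'] at hE
    omega
  omega

end Pool.Agent.H879.Neg
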