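import Pool.Agent.H879.Neg.Genus
import Pool.Agent.H879.PC.Chain
import Pool.Agent.H879.RV.Adj
import Pool.Graph.R_seed8.TH442.NF.Nef
import Pool.Graph.R_pool_sql_team_seeded_c8625f6e.K4H28.SP.Nine

/-! Prime divisors with nonzero `h¹` and their tenth multiplicity. -/

set_option autoImplicit false

namespace Pool.Agent.H879.Neg

open Finset MvPolynomial Pool.Agent.TH167 Pool.Agent.TH167.SHDefs
open Pool.Agent.TH176.Nag Pool.Agent.TH603.Sur H932R3
open Pool.Agent.TH2 Pool.Agent.TH2.NU Pool.Agent.Y205.MD Pool.Agent.Y205.FW Pool.Agent.Y205.AV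
open Pool.Agent.K7.H33.BP
open Pool.Agent.Q310.FP (GE)
open Pool.Agent.H879.Star
open Pool.Agent.W609.CR (VS aff Ord Van vs_eq_forms)

/-- the dimensions along a chain of quadratic transformations -/
theorem chain_dim {K : Type} [Field K] [CharZero K] {s : ℕ} {a b : ℕ × (Fin s → ℕ)}
    (h : Relation.ReflTransGen SH.Quad a b) {P : Fin s → Fin 2 → K}
    (hP : AlgebraicIndependent ℚ (fun ij : Fin s × Fin 2 => P ij.1 ij.2)) :
    ∃ P' : Fin s → Fin 2 → K,
      AlgebraicIndependent ℚ (fun ij : Fin s × Fin 2 => P' ij.1 ij.2) ∧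
      Module.finrank K ↥(VS (fun j => aff (P' j)) b.2 b.1) =
        Module.finrank K ↥(VS (fun j => aff (P j)) a.2 a.1) := by
  induction h with
  | refl => exact ⟨P, hP, rfl⟩
  | @tail b c _ hbc ih =>
    obtain ⟨P1, hP1, h1⟩ := ih
    obtain ⟨i, hi, p, rfl⟩ := hbc
    obtain ⟨P2, hP2, hr⟩ := SH.exists_crel hP1 hi
    refine ⟨P2, hP2, ?_⟩
    rw [← h1]
    exact hr.dim p

/-- all generic points have the same dimension -/
theorem finrank_two {K : Type} [Field K] [CharZero K] {s : ℕ} {P P' : Fin s → Fin 2 → K}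
    (hP : AlgebraicIndependent ℚ (fun ij : Fin s × Fin 2 => P ij.1 ij.2))
    (hP' : AlgebraicIndependent ℚ (fun ij : Fin s × Fin 2 => P' ij.1 ij.2))
    (w : Fin s → ℕ) (d : ℕ) :
    Module.finrank K ↥(VS (fun j => aff (P' j)) w d) =
      Module.finrank K ↥(VS (fun j => aff (P j)) w d) := by
  rw [vs_eq_forms, vs_eq_forms]
  exact (Pos.finrank_ind w d hP').trans (Pos.finrank_ind w d hP).symm

/-- The standard form of a prime divisor with nonzero `h¹`. -/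
structure PrimeForm {K : Type} [Field K] [CharZero K] {r : ℕ} (P : Fin (r + 4) → Fin 2 → K)
    (d : ℕ) (w : Fin (r + 4) → ℕ) (P1 : Fin (r + 4) → Fin 2 → K) (d1 : ℕ)
    (w1 : Fin (r + 4) → ℕ) (C1 : MvPolynomial (Fin 3) K) : Prop where
  alg : AlgebraicIndependent ℚ (fun ij : Fin (r + 4) × Fin 2 => P1 ij.1 ij.2)
  irr : Irreducible C1
  hom : C1.IsHomogeneous d1
  ord : ∀ j, Ord (aff (P1 j)) (w1 j) C1
  chain : Relation.ReflTransGen Quadratic (d, w) (d1, w1)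
  std : Pool.Agent.Y536.SH.Standard d1 w1
  deg : d1 ≤ d
  mult : ∀ i, w1 i ≤ w i
  chi : SH.chi d1 w1 = SH.chi d w
  can : 3 * d1 ≤ ∑ i, w1 i
  dim : Module.finrank K ↥(VS (fun j => aff (P1 j)) w1 d1) =
    Module.finrank K ↥(VS (fun j => aff (P j)) w d)
  spec : ¬ GE d1 w1

theorem prime_std {K : Type} [Field K] [IsAlgClosed K] [CharZero K] {r : ℕ}
    {P : Fin (r + 4) → Fin 2 → K}
    (hP : AlgebraicIndependent ℚ (fun ij : Fin (r + 4) × Fin 2 => P ij.1 ij.2))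
    {d : ℕ} {w : Fin (r + 4) → ℕ} {C : MvPolynomial (Fin 3) K} (hC : Irreducible C)
    (hCd : C.IsHomogeneous d) (hw : ∀ j, Ord (aff (P j)) (w j) C) (hh : ¬ PC.H1 P w d) :
    ∃ (P1 : Fin (r + 4) → Fin 2 → K) (d1 : ℕ) (w1 : Fin (r + 4) → ℕ)
      (C1 : MvPolynomial (Fin 3) K), PrimeForm P d w P1 d1 w1 C1 := by
  have hK : 3 * d ≤ ∑ i, w i := by
    by_contra hcon
    exact hh (PC.h1_negK (SH.inj_of_alg hP) hC hCd hw (by omega))
  have hne' : ¬ (SH.ip d w d w = -1 ∧ SH.kk d w = 1) := fun h0 => by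
    have h1 := h0.2
    rw [SH.kk_cast] at h1
    omega
  obtain ⟨M, hM⟩ : ∃ M, ∀ j, w j ≤ M := ⟨∑ j, w j, fun j =>
    Finset.single_le_sum (fun _ _ => Nat.zero_le _) (Finset.mem_univ j)⟩
  have hfew : SH.Few M d w := by
    left
    rw [Finset.filter_false_of_mem fun j _ => not_lt.2 (hM j)]
    simp
  obtain ⟨P1, d1, w1, C1, a1, a2, a3, a4, a5, a6, a7, a8⟩ :=
    Pool.Agent.Y939.NC.std_irr d P hP w hfew C hC hCd hw hne'
  obtain ⟨c1, c2, c3⟩ := SH.quad_inv a5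
  simp only at c1 c2 c3
  obtain ⟨P2, b1, b2⟩ := chain_dim a5 hP
  have hdim := (finrank_two b1 a1 w1 d1).trans b2
  have hkk := c2
  rw [SH.kk_cast, SH.kk_cast] at hkk
  refine ⟨P1, d1, w1, C1, ⟨a1, a2, a3, a4, SH.chain_conv a5, a6, a7, a8, c1, by omega, hdim,
    fun hG => hh ?_⟩⟩
  have h6 := hG K P1 a1
  rw [Pool.Agent.TH442.NF.expDim_iff] at h6
  have hmem : C1 ∈ VS (fun j => aff (P1 j)) w1 d1 :=
    (SH.mem_VS _ _ _ _).2 ⟨a3, fun j => (a4 j).1⟩
  have hfin := Pool.Agent.W609.CR.vs_fin (fun j => aff (P1 j)) w1 d1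
  have hpos : 0 < Module.finrank K ↥(VS (fun j => aff (P1 j)) w1 d1) :=
    Module.finrank_pos_iff.2 ⟨⟨C1, hmem⟩, 0, fun h7 => a2.ne_zero (congrArg Subtype.val h7)⟩
  rw [hdim, c1] at h6
  rw [hdim] at hpos
  unfold PC.H1
  have h8 : SH.chi d w = ((d + 2).choose 2 : ℤ) - ((∑ i, (w i + 1).choose 2 : ℕ) : ℤ) := by
    unfold SH.chi
    push_cast
    rfl
  have h9 : 0 < SH.chi d w := by
    by_contra hcon
    push Not at hcon
    have h10 : Pool.Agent.TH167.SH.chi d w ≤ 0 := hcon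
    rw [max_eq_left h10] at h6
    omega
  have h11 : 0 ≤ Pool.Agent.TH167.SH.chi d w := h9.le
  rw [max_eq_right h11, h8] at h6
  have h12 : (Module.finrank K ↥(VS (fun i => aff (P i)) w d) : ℤ) =
    ((d + 2).choose 2 : ℤ) - ((∑ i, (w i + 1).choose 2 : ℕ) : ℤ) := h6
  omega

/-- The bounds for special standard classes of irreducible curves. -/
theorem bounds_all {n d b : ℕ} {w : Fin n → ℕ} {I : Finset (Fin n)} (hn : 4 ≤ n)
    (hs : Pool.Agent.Q310.FP.Standard d w) (hI : I.card ≤ 9) (hb : ∀ i, i ∉ I → w i ≤ b)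
    (hG : ¬ GE d w) (hX : ∀ j, 1 ≤ w j → ∑ i, w i ^ 2 ≤ d ^ 2 + w j) :
    d < 10000000000000000000000000000000 * (b + 1) ^ 14 ∧
    (d : ℤ) ^ 2 - ∑ i ∈ I, (w i : ℤ) ^ 2 < 60000000 * (((b : ℤ) + 1) ^ 2 * (d + b + 2)) ∧
    interK d w - inter d w d w ≤ (d : ℤ) ^ 2 - ∑ i ∈ I, (w i : ℤ) ^ 2 + 2 * b := by
  classical
  have h1 : d < 10000000000000000000000000000000 * (b + 1) ^ 14 := by
    by_contra hcon
    push Not at hcon
    exact hG (ge_star hn hs hI hb hcon)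
  have h2 := room_small hn hs hI hb hG
  have h3 := sum_nine hn hs hI
  have e1 : ∑ i ∈ I, (w i : ℤ) * (w i + 1) = ∑ i ∈ I, (w i : ℤ) ^ 2 + ((∑ i ∈ I, w i : ℕ) : ℤ) := by
    push_cast
    rw [← Finset.sum_add_distrib]
    exact Finset.sum_congr rfl fun i _ => by ring
  have h3' : ((∑ i ∈ I, w i : ℕ) : ℤ) ≤ 3 * d := by exact_mod_cast h3
  rw [e1] at h2
  have h11 : ((∑ i ∈ I, w i : ℕ) : ℤ) = ∑ i ∈ I, (w i : ℤ) := by push_cast; rfl
  have hi2 : inter d w d w = (d : ℤ) ^ 2 - ∑ i, (w i : ℤ) ^ 2 := by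
    unfold inter
    rw [sq]
    congr 1
    exact Finset.sum_congr rfl fun i _ => by ring
  have hsplit : ∀ f : Fin n → ℤ, ∑ i, f i = ∑ i ∈ I, f i + ∑ i ∈ Iᶜ, f i := fun f =>
    (Finset.sum_add_sum_compl I f).symm
  -- a positive multiplicity outside of `I`
  obtain ⟨j, hj, hj0⟩ : ∃ j ∈ Iᶜ, 1 ≤ w j := by
    by_contra hcon
    push Not at hcon
    refine hG (RV.ge_few hn hs (le_trans (Finset.card_le_card fun i hi => ?_) hI))
    by_contra hiI
    have h4 := hcon i (Finset.mem_compl.2 hiI)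
    have h5 := (Finset.mem_filter.1 hi).2
    omega
  have hjb : w j ≤ b := hb j (Finset.mem_compl.1 hj)
  have hk : ∑ i, (w i : ℤ) ^ 2 ≤ (d : ℤ) ^ 2 + b := by
    have h5 := hX j hj0
    have h6 : ((∑ i, w i ^ 2 : ℕ) : ℤ) ≤ ((d ^ 2 + w j : ℕ) : ℤ) := by exact_mod_cast h5
    push_cast at h6
    have h7 : ((w j : ℕ) : ℤ) ≤ b := by exact_mod_cast hjb
    linarith
  refine ⟨h1, by linarith, ?_⟩
  rw [hi2]
  unfold interK
  have h8 : ∑ i, (w i : ℤ) ≤ 3 * d + ∑ i ∈ Iᶜ, (w i : ℤ) ^ 2 := by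
    rw [hsplit]
    have h9 : ∑ i ∈ Iᶜ, (w i : ℤ) ≤ ∑ i ∈ Iᶜ, (w i : ℤ) ^ 2 := Finset.sum_le_sum fun i _ => by
      have h10 : w i ≤ w i ^ 2 := Nat.le_self_pow (by norm_num) _
      exact_mod_cast h10
    linarith
  have h12 := hsplit fun i => (w i : ℤ) ^ 2
  linarith

/-- The dimension of a special standard class. -/
theorem dim_le {K : Type} [Field K] [CharZero K] {n d b : ℕ} {w : Fin n → ℕ}
    {P : Fin n → Fin 2 → K} {I : Finset (Fin n)} (hn : 4 ≤ n)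
    (hP : AlgebraicIndependent ℚ (fun ij : Fin n × Fin 2 => P ij.1 ij.2))
    (hs : Pool.Agent.Q310.FP.Standard d w) (hI : I.card ≤ 9) (hb : ∀ i, i ∉ I → w i ≤ b)
    (hG : ¬ GE d w) :
    Module.finrank K ↥(VS (fun j => aff (P j)) w d) ≤ (d + b) * b := by
  have hle3 : ∀ i j k : Fin n, i ≠ j → i ≠ k → j ≠ k → w i + w j + w k ≤ d := hs
  have hcard : ∀ S : Finset (Fin n), S.card ≤ 2 → ∃ x, x ∉ S := by
    intro S hS
    by_contra hcon
    push Not at hcon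
    have h1 : (Finset.univ : Finset (Fin n)) ⊆ S := fun x _ => hcon x
    have h2 := Finset.card_le_card h1
    rw [Finset.card_univ, Fintype.card_fin] at h2
    omega
  have hred : Pool.Agent.K4H28.SP.Red3 d w := by
    have h2 : ∀ i j, i ≠ j → w i + w j ≤ d := by
      intro i j hij
      obtain ⟨x, hx⟩ := hcard {i, j} (Finset.card_le_two)
      rw [Finset.mem_insert, Finset.mem_singleton, not_or] at hx
      have := hle3 i j x hij (Ne.symm hx.1) (Ne.symm hx.2)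
      omega
    refine ⟨fun i => ?_, h2, hle3⟩
    obtain ⟨x, hx⟩ := hcard {i} (by rw [Finset.card_singleton]; omega)
    rw [Finset.mem_singleton] at hx
    have := h2 i x (Ne.symm hx)
    omega
  have hgd := Pool.Agent.K4H28.SP.finrank_gen hP w d
  rw [vs_eq_forms]
  have h1 := Pool.Agent.K4H28.SP.gd_upper9 hred (T := I) hI (A := max d b)
    (fun j _ => (hred.1 j).trans (le_max_left _ _)) hb (le_max_right _ _)
  rcases h1 with h1 | h1
  · exfalso
    refine hG (RV.ge_of_crk ?_)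
    rw [← Pos.finrank_ind w d hP]
    have h2 := hgd
    omega
  · have h2 : Module.finrank K ↥(H248R5.forms w P d) = Pool.Agent.K4H28.SP.gd w d := hgd
    rw [h2]
    refine h1.trans (Nat.mul_le_mul ?_ (Nat.sub_le _ _))
    have : max d b ≤ d + b := max_le (by omega) (by omega)
    omega

end Pool.Agent.H879.Neg
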