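import Pool.Agent.H879.Neg.Prime
import Pool.Graph.R_seed8.TH167.SH.Segre
import Pool.Graph.R_seed8.H248R5.Gen

/-! Special systems without a multiple component and their tenth multiplicity. -/

set_option autoImplicit false

namespace Pool.Agent.H879.Neg

open Finset MvPolynomial Pool.Agent.TH167 Pool.Agent.TH167.SHDefs
open Pool.Agent.TH176.Nag Pool.Agent.TH603.Sur H932R3
open Pool.Agent.TH2 Pool.Agent.TH2.NU Pool.Agent.Y205.MD Pool.Agent.Y205.FW Pool.Agent.Y205.AV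
open Pool.Agent.K7.H33.BP
open Pool.Agent.TH387.SH (TF)
open Pool.Agent.Q310.FP (GE)
open Pool.Agent.H879.Star
open Pool.Agent.W609.CR (VS aff Ord Van vs_eq_forms)

/-- the Euler characteristic of the residual class -/
theorem dcp_chi {K : Type} [Field K] {s : ℕ} {P : Fin s → Fin 2 → K} {d : ℕ} {w : Fin s → ℕ}
    {d' : ℕ} {w' : Fin s → ℕ} {k : ℕ} {C : Fin k → MvPolynomial (Fin 3) K} {e : Fin k → ℕ}
    {u : Fin k → Fin s → ℕ} {N : Fin k → ℕ} (h : SH.Dcp P d w d' w' C e u N)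
    (hN : ∀ a, N a = 1) : SH.chi d' w' = SH.chi d w := by
  have h1 := h.ip_eq d w
  have h2 := SH.ip_comm d' d w' w
  have h3 := h.ip_eq d' w'
  have h4 : ∑ a, (N a : ℤ) * SH.ip (e a) (u a) d' w' = 0 := Finset.sum_eq_zero fun a _ => by
    rw [SH.ip_comm, h.zero a, mul_zero]
  have h5 : ∑ a, (N a : ℤ) * SH.ip (e a) (u a) d w = - (k : ℤ) := by
    have h6 : ∀ a, (N a : ℤ) * SH.ip (e a) (u a) d w = -1 := by
      intro a
      rw [SH.ip_comm, h.neg a, hN a]
      norm_num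
    rw [Finset.sum_congr rfl fun a _ => h6 a, Finset.sum_const, Finset.card_univ,
      Fintype.card_fin, nsmul_eq_mul]
    ring
  have h6 : (d : ℤ) = d' + ∑ a, (e a : ℤ) := by
    have h7 : d = d' + ∑ a, e a := by
      have h8 := h.deg
      simp only [hN, one_mul] at h8
      exact h8
    rw [h7]
    push_cast
    rfl
  have h7 : ∑ j, (w j : ℤ) = ∑ j, (w' j : ℤ) + ∑ a, ∑ j, (u a j : ℤ) := by
    have h8 : ∀ j, (w j : ℤ) = w' j + ∑ a, (u a j : ℤ) := by
      intro j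
      have h9 := h.mul j
      simp only [hN, one_mul] at h9
      rw [h9]
      push_cast
      rfl
    rw [Finset.sum_congr rfl fun j _ => h8 j, Finset.sum_add_distrib, Finset.sum_comm]
  have h8 : ∀ a, ∑ j, (u a j : ℤ) = 3 * (e a : ℤ) - 1 := by
    intro a
    have h9 := (h.exc a).can
    have h10 : ((3 * e a : ℕ) : ℤ) = ((∑ j, u a j + 1 : ℕ) : ℤ) := by rw [h9]
    push_cast at h10
    linarith
  rw [Finset.sum_congr rfl fun a _ => h8 a, Finset.sum_sub_distrib, ← Finset.mul_sum,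
    Finset.sum_const, Finset.card_univ, Fintype.card_fin, nsmul_eq_mul, mul_one] at h7
  have h9 : SH.kk d w = SH.kk d' w' + k := by
    unfold SH.kk
    rw [h6, h7]
    ring
  have h10 := SH.two_chi d w
  have h11 := SH.two_chi d' w'
  omega

/-- standard classes have small multiplicities -/
theorem std_red3 {n d : ℕ} {w : Fin n → ℕ} (hn : 4 ≤ n) (hs : Pool.Agent.Q310.FP.Standard d w) :
    Pool.Agent.K4H28.SP.Red3 d w := by
  have hle3 : ∀ i j k : Fin n, i ≠ j → i ≠ k → j ≠ k → w i + w j + w k ≤ d := hs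
  have hcard : ∀ S : Finset (Fin n), S.card ≤ 2 → ∃ x, x ∉ S := by
    intro S hS
    by_contra hcon
    push Not at hcon
    have h1 : (Finset.univ : Finset (Fin n)) ⊆ S := fun x _ => hcon x
    have h2 := Finset.card_le_card h1
    rw [Finset.card_univ, Fintype.card_fin] at h2
    omega
  have h2 : ∀ i j, i ≠ j → w i + w j ≤ d := by
    intro i j hij
    obtain ⟨x, hx⟩ := hcard {i, j} (Finset.card_le_two)
    rw [Finset.mem_insert, Finset.mem_singleton, not_or] at hx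
    have := hle3 i j x hij (Ne.symm hx.1) (Ne.symm hx.2)
    omega
  refine ⟨fun i => ?_, h2, hle3⟩
  obtain ⟨x, hx⟩ := hcard {i} (by rw [Finset.card_singleton]; omega)
  rw [Finset.mem_singleton] at hx
  have := h2 i x (Ne.symm hx)
  omega

/-- The bounds for special standard classes. -/
theorem bounds_sp {n d b : ℕ} {w : Fin n → ℕ} {I : Finset (Fin n)} (hn : 4 ≤ n)
    (hs : Pool.Agent.Q310.FP.Standard d w) (hI : I.card ≤ 9) (hb : ∀ i, i ∉ I → w i ≤ b)
    (hG : ¬ GE d w) (hc : crk (TF d) w ≠ 0) :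
    d < 10000000000000000000000000000000 * (b + 1) ^ 14 ∧
    (d : ℤ) ^ 2 - ∑ i ∈ I, (w i : ℤ) ^ 2 < 60000000 * (((b : ℤ) + 1) ^ 2 * (d + b + 2)) ∧
    interK d w - inter d w d w ≤ (d : ℤ) ^ 2 - ∑ i ∈ I, (w i : ℤ) ^ 2 + 2 * (b : ℤ) ^ 2 ∧
    crk (TF d) w ≤ (d + b) * b := by
  classical
  obtain ⟨r, rfl⟩ : ∃ r, n = r + 4 := ⟨n - 4, by omega⟩
  have h1 : d < 10000000000000000000000000000000 * (b + 1) ^ 14 := by
    by_contra hcon
    push Not at hcon
    exact hG (ge_star hn hs hI hb hcon)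
  have h2 := room_small hn hs hI hb hG
  have h3 := sum_nine hn hs hI
  have e1 : ∑ i ∈ I, (w i : ℤ) * (w i + 1) = ∑ i ∈ I, (w i : ℤ) ^ 2 + ((∑ i ∈ I, w i : ℕ) : ℤ) := by
    push_cast
    rw [← Finset.sum_add_distrib]
    exact Finset.sum_congr rfl fun i _ => by ring
  have h3' : ((∑ i ∈ I, w i : ℕ) : ℤ) ≤ 3 * d := by exact_mod_cast h3
  rw [e1] at h2
  have h11 : ((∑ i ∈ I, w i : ℕ) : ℤ) = ∑ i ∈ I, (w i : ℤ) := by push_cast; rfl
  have hi2 : inter d w d w = (d : ℤ) ^ 2 - ∑ i, (w i : ℤ) ^ 2 := by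
    unfold inter
    rw [sq]
    congr 1
    exact Finset.sum_congr rfl fun i _ => by ring
  have hsplit : ∀ f : Fin (r + 4) → ℤ, ∑ i, f i = ∑ i ∈ I, f i + ∑ i ∈ Iᶜ, f i := fun f =>
    (Finset.sum_add_sum_compl I f).symm
  have hk : ∑ i, (w i : ℤ) ^ 2 ≤ (d : ℤ) ^ 2 + (b : ℤ) ^ 2 := by
    by_contra hcon
    push Not at hcon
    refine hc (RV.crk_empty hs (S := I) (η := (b : ℝ) ^ 2) (by positivity) hI (fun i hi => ?_) ?_)
    · left
      have h4 : (w i : ℝ) ≤ b := by exact_mod_cast hb i hi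
      have h5 : (w i : ℝ) ^ 2 ≤ (b : ℝ) ^ 2 := pow_le_pow_left₀ (Nat.cast_nonneg _) h4 2
      have h6 : 0 ≤ (b : ℝ) ^ 2 := by positivity
      linarith
    · exact_mod_cast hcon
  refine ⟨h1, by linarith, ?_, ?_⟩
  · rw [hi2]
    unfold interK
    have h8 : ∑ i, (w i : ℤ) ≤ 3 * d + ∑ i ∈ Iᶜ, (w i : ℤ) ^ 2 := by
      rw [hsplit]
      have h9 : ∑ i ∈ Iᶜ, (w i : ℤ) ≤ ∑ i ∈ Iᶜ, (w i : ℤ) ^ 2 := Finset.sum_le_sum fun i _ => by
        have h10 : w i ≤ w i ^ 2 := Nat.le_self_pow (by norm_num) _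
        exact_mod_cast h10
      linarith
    have h12 := hsplit fun i => (w i : ℤ) ^ 2
    linarith
  · obtain ⟨P, hP⟩ := RV.exists_pts (r + 4)
    have h4 := dim_le hn hP hs hI hb hG
    rw [vs_eq_forms] at h4
    rw [← Pos.finrank_ind w d hP]
    exact h4

/-- **Special systems which meet the `(-1)`-curves in at least `-1`.** -/
theorem segre_gen {n : ℕ} (hn : 4 ≤ n) (d : ℕ) (w : Fin n → ℕ) :
    ∃ F : MvPolynomial (Fin n × Fin 2) ℂ, F ≠ 0 ∧ ∀ P : Fin n → Fin 2 → ℂ,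
      eval (fun ij : Fin n × Fin 2 => P ij.1 ij.2) F ≠ 0 → Function.Injective P ∧
        (Special P d w → (∀ (G : MvPolynomial (Fin 3) ℂ) (e : ℕ) (u : Fin n → ℕ),
          MinusOne P G e u → -1 ≤ inter d w e u) →
        ∃ (d'' : ℕ) (w'' : Fin n → ℕ) (k : ℕ) (G : Fin k → MvPolynomial (Fin 3) ℂ)
          (e : Fin k → ℕ) (u : Fin k → Fin n → ℕ) (d' : ℕ) (w' : Fin n → ℕ),
          Decomp P d w d'' w'' G e u (fun _ => 1) ∧
          Relation.ReflTransGen Quadratic (d'', w'') (d', w') ∧ Less d' w' d w ∧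
          Pool.Agent.Q310.FP.Standard d' w' ∧ dimL P d' w' = dimL P d w ∧
          SH.chi d' w' = SH.chi d w ∧ Special P d' w' ∧ ¬ GE d' w' ∧
          Module.finrank ℂ ↥(sys P d' w') = crk (TF d') w') := by
  classical
  obtain ⟨r, rfl⟩ : ∃ r, n = r + 4 := ⟨n - 4, by omega⟩
  obtain ⟨F, hF, hF'⟩ := hh_less (Q := fun d' w' => GE d' w')
    (fun hP d1 w1 _ hG => hG _ _ hP) d w
  obtain ⟨B, hB⟩ : ∃ B, B = (Finset.range (d + 1)) ×ˢ
    (Fintype.piFinset fun _ : Fin (r + 4) => Finset.range (d + 1)) := ⟨_, rfl⟩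
  obtain ⟨Fb, hFb⟩ : ∃ Fb : MvPolynomial (Fin (r + 4) × Fin 2) ℚ,
    Fb = ∏ p ∈ B, (Pos.finrank_open p.2 p.1).choose := ⟨_, rfl⟩
  have hFb0 : Fb ≠ 0 := by
    rw [hFb, Finset.prod_ne_zero_iff]
    exact fun p _ => (Pos.finrank_open p.2 p.1).choose_spec.1
  refine ⟨(F * Fb).map (algebraMap ℚ ℂ) * Pool.Agent.H248R5.disc ℂ (r + 4),
    mul_ne_zero (SH.map_ne (mul_ne_zero hF hFb0)) (Pool.Agent.H248R5.disc_ne ℂ (r + 4)),
    fun P hP => ?_⟩
  rw [map_mul] at hP
  have hinj := Pool.Agent.H248R5.inj_of_disc (right_ne_zero_of_mul hP)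
  have hP1 := left_ne_zero_of_mul hP
  rw [SH.evP_eval] at hP1
  have hP2 : aeval (fun ij : Fin (r + 4) × Fin 2 => P ij.1 ij.2) (F * Fb) ≠ 0 := hP1
  rw [map_mul] at hP2
  have hPF := left_ne_zero_of_mul hP2
  have hPb := right_ne_zero_of_mul hP2
  refine ⟨hinj, fun hsp hE => ?_⟩
  have hs := (SH.special_conv P d w).1 hsp
  rcases hF' ℂ P hPF hs with h | ⟨d', w', k, C, e, u, N, d1, w1, h1, h2, hl, h3, h4, h5, h6⟩
  · exfalso
    obtain ⟨G, e, u, c1, c2⟩ := SH.mspecial_curve ((SH.mspecial_conv P d w).2 h)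
    have := hE G e u c1
    omega
  · have hN1 : ∀ a, N a = 1 := by
      intro a
      have h7 := hE (C a) (e a) (u a) (SH.minusOne_iff.2 (h1.exc a))
      rw [SH.inter_eq, h1.neg a] at h7
      have h8 := h1.pos a
      omega
    have hN2 : N = fun _ => 1 := funext hN1
    have hstd : Pool.Agent.Q310.FP.Standard d1 w1 := h3
    have hred := std_red3 hn hstd
    have hmem : (d1, w1) ∈ B := by
      rw [hB, Finset.mem_product, Fintype.mem_piFinset]
      refine ⟨Finset.mem_range.2 (by have := hl.1; show d1 < d + 1; omega), fun i =>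
        Finset.mem_range.2 ?_⟩
      have h9 := hred.1 i
      have h10 := hl.1
      show w1 i < d + 1
      omega
    have hopen : Module.finrank ℂ ↥(H248R5.forms w1 P d1) = crk (TF d1) w1 := by
      refine (Pos.finrank_open w1 d1).choose_spec.2 ℂ P fun h0 => hPb ?_
      rw [hFb, map_prod]
      exact Finset.prod_eq_zero hmem h0
    refine ⟨d', w', k, C, e, u, d1, w1, ?_, SH.chain_conv h2, hl, hstd, ?_, ?_,
      (SH.special_conv P d1 w1).2 h4, h6, ?_⟩
    · have h11 := SH.decomp_iff.2 h1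
      rw [hN2] at h11
      exact h11
    · rw [SH.dimL_eq, SH.dimL_eq, h5]
    · obtain ⟨c1, -, -⟩ := SH.quad_inv h2
      exact c1.trans (dcp_chi h1 hN1)
    · rw [SH.sys_eq, vs_eq_forms]
      exact hopen

end Pool.Agent.H879.Neg
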