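import Pool.Agent.H879.Star.Fin
import Pool.Agent.H879.Pos.Xu
import Pool.Agent.H879.RV.MarginGE
import Pool.Graph.R_pool_sql_team_seeded_64922ed1.X213.NegStd

/-! Negative curves and their tenth multiplicity. -/

set_option autoImplicit false

namespace Pool.Agent.H879.Neg

open Finset MvPolynomial Pool.Agent.TH167 Pool.Agent.TH167.SHDefs
open Pool.Agent.TH176.Nag Pool.Agent.TH603.Sur H932R3
open Pool.Agent.TH2 Pool.Agent.TH2.NU Pool.Agent.Y205.MD Pool.Agent.Y205.FW Pool.Agent.Y205.AV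
open Pool.Agent.K7.H33.BP
open Pool.Agent.Q310.FP (GE)
open Pool.Agent.H879.Star

/-- the room left by the (at most nine) large multiplicities is small -/
theorem room_small {n d μ : ℕ} {w : Fin n → ℕ} {I : Finset (Fin n)} (hn : 4 ≤ n)
    (hs : Pool.Agent.Q310.FP.Standard d w) (hI : I.card ≤ 9) (hμ : ∀ i, i ∉ I → w i ≤ μ)
    (hG : ¬ GE d w) :
    ((d : ℤ) + 1) * (d + 2) - ∑ i ∈ I, (w i : ℤ) * (w i + 1) <
      60000000 * (((μ : ℤ) + 1) ^ 2 * (d + μ + 2)) := by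
  have hstd := nineStd_of (by omega) hs hI
  by_contra hcon
  push Not at hcon
  refine hG (ge_of_crit (dec_nine hstd hμ (numericK (K := 30000000) hμ (Or.inr ?_))))
  refine le_trans (le_of_eq ?_) hcon
  push_cast
  ring

/-- three-sums bound nine-sums -/
theorem sum_nine {n d : ℕ} {w : Fin n → ℕ} {I : Finset (Fin n)} (hn : 4 ≤ n)
    (hs : Pool.Agent.Q310.FP.Standard d w) (hI : I.card ≤ 9) : ∑ i ∈ I, w i ≤ 3 * d := by
  have hstd := nineStd_of (by omega) hs hI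
  obtain ⟨a1, a2, a3, a4, a5, a6, a7, a8, a9, k, q1, q2, q3, q4, q5, q6, q7, q8, q9, hMk⟩ :=
    nine_list hstd
  have hsum := sum_list hMk (fun x => x) rfl
  omega

/-- The negative curves in standard form. -/
theorem bounds {n d b : ℕ} {w : Fin n → ℕ} {I : Finset (Fin n)} (hn : 4 ≤ n)
    (hs : Pool.Agent.Q310.FP.Standard d w) (hI : I.card ≤ 9) (hb : ∀ i, i ∉ I → w i ≤ b)
    (hG : ¬ GE d w) (hX : ∀ j, 1 ≤ w j → ∑ i, w i ^ 2 ≤ d ^ 2 + w j)
    (hneg : inter d w d w < 0) :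
    d < 10000000000000000000000000000000 * (b + 1) ^ 14 ∧
    (d : ℤ) ^ 2 - ∑ i ∈ I, (w i : ℤ) ^ 2 < 60000000 * (((b : ℤ) + 1) ^ 2 * (d + b + 2)) ∧
    interK d w - inter d w d w ≤ (d : ℤ) ^ 2 - ∑ i ∈ I, (w i : ℤ) ^ 2 + 2 * b := by
  classical
  have h1 : d < 10000000000000000000000000000000 * (b + 1) ^ 14 := by
    by_contra hcon
    push Not at hcon
    exact hG (ge_star hn hs hI hb hcon)
  have h2 := room_small hn hs hI hb hG
  have h3 := sum_nine hn hs hI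
  have e1 : ∑ i ∈ I, (w i : ℤ) * (w i + 1) = ∑ i ∈ I, (w i : ℤ) ^ 2 + ((∑ i ∈ I, w i : ℕ) : ℤ) := by
    push_cast
    rw [← Finset.sum_add_distrib]
    exact Finset.sum_congr rfl fun i _ => by ring
  have h3' : ((∑ i ∈ I, w i : ℕ) : ℤ) ≤ 3 * d := by exact_mod_cast h3
  rw [e1] at h2
  -- a positive multiplicity outside of `I`
  have hi2 : inter d w d w = (d : ℤ) ^ 2 - ∑ i, (w i : ℤ) ^ 2 := by
    unfold inter
    rw [sq]
    congr 1
    exact Finset.sum_congr rfl fun i _ => by ring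
  have hsplit : ∀ f : Fin n → ℤ, ∑ i, f i = ∑ i ∈ I, f i + ∑ i ∈ Iᶜ, f i := fun f =>
    (Finset.sum_add_sum_compl I f).symm
  -- `k ≤ b`
  have hsI : ∑ i ∈ I, w i ^ 2 ≤ d ^ 2 := by
    have hstd := nineStd_of (by omega) hs hI
    obtain ⟨a1, a2, a3, a4, a5, a6, a7, a8, a9, k, q1, q2, q3, q4, q5, q6, q7, q8, q9, hMk⟩ :=
      nine_list hstd
    have hsum := sum_list hMk (fun x => x ^ 2) rfl
    rw [hsum]
    obtain ⟨c, hc⟩ : ∃ c, d = a1 + a2 + a3 + c := ⟨d - (a1 + a2 + a3), by omega⟩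
    rw [hc]
    have m1 : a4 ≤ a3 := q3
    have m4 : a4 * a4 ≤ a1 * a2 := Nat.mul_le_mul (by omega) (by omega)
    have m5 : a5 * a5 ≤ a1 * a2 := Nat.mul_le_mul (by omega) (by omega)
    have m6 : a6 * a6 ≤ a1 * a3 := Nat.mul_le_mul (by omega) (by omega)
    have m7 : a7 * a7 ≤ a1 * a3 := Nat.mul_le_mul (by omega) (by omega)
    have m8 : a8 * a8 ≤ a2 * a3 := Nat.mul_le_mul (by omega) (by omega)
    have m9 : a9 * a9 ≤ a2 * a3 := Nat.mul_le_mul (by omega) (by omega)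
    nlinarith [Nat.zero_le (c * c), Nat.zero_le (c * a1), Nat.zero_le (c * a2),
      Nat.zero_le (c * a3)]
  have hsI' : ∑ i ∈ I, (w i : ℤ) ^ 2 ≤ (d : ℤ) ^ 2 := by exact_mod_cast hsI
  obtain ⟨j, hj, hj0⟩ : ∃ j ∈ Iᶜ, 1 ≤ w j := by
    by_contra hcon
    push Not at hcon
    have h4 : ∑ i ∈ Iᶜ, (w i : ℤ) ^ 2 = 0 := Finset.sum_eq_zero fun i hi => by
      have : w i = 0 := by
        have := hcon i hi
        omega
      rw [this]
      norm_num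
    rw [hi2, hsplit, h4] at hneg
    omega
  have hjb : w j ≤ b := hb j (Finset.mem_compl.1 hj)
  have hk : ∑ i, (w i : ℤ) ^ 2 ≤ (d : ℤ) ^ 2 + b := by
    have h5 := hX j hj0
    have h6 : ((∑ i, w i ^ 2 : ℕ) : ℤ) ≤ ((d ^ 2 + w j : ℕ) : ℤ) := by exact_mod_cast h5
    push_cast at h6
    have h7 : ((w j : ℕ) : ℤ) ≤ b := by exact_mod_cast hjb
    linarith
  refine ⟨h1, by linarith, ?_⟩
  rw [hi2]
  unfold interK
  have h8 : ∑ i, (w i : ℤ) ≤ 3 * d + ∑ i ∈ Iᶜ, (w i : ℤ) ^ 2 := by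
    rw [hsplit]
    have h9 : ∑ i ∈ Iᶜ, (w i : ℤ) ≤ ∑ i ∈ Iᶜ, (w i : ℤ) ^ 2 := Finset.sum_le_sum fun i _ => by
      have h10 : w i ≤ w i ^ 2 := Nat.le_self_pow (by norm_num) _
      exact_mod_cast h10
    have h11 : ((∑ i ∈ I, w i : ℕ) : ℤ) = ∑ i ∈ I, (w i : ℤ) := by push_cast; rfl
    linarith
  have h12 := hsplit fun i => (w i : ℤ) ^ 2
  linarith

end Pool.Agent.H879.Neg
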